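import Mathlib

open MeasureTheory Filter Topology Set

namespace Pool.Agent.Helper44.PNT

/-- The Fejer weight `w x = sinc (x / 2) ^ 2`. -/
noncomputable def w (x : ℝ) : ℝ := Real.sinc (x / 2) ^ 2

lemma w_nonneg (x : ℝ) : 0 ≤ w x := sq_nonneg _

lemma w_continuous : Continuous w :=
  (Real.continuous_sinc.comp (continuous_id.div_const 2)).pow 2

lemma w_le_one (x : ℝ) : w x ≤ 1 := by
  have h := Real.abs_sinc_le_one (x / 2)
  have h2 : |Real.sinc (x / 2)| ^ 2 ≤ 1 := pow_le_one₀ (abs_nonneg _) h
  rwa [sq_abs] at h2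

lemma w_le (x : ℝ) : w x ≤ 8 * (1 + x ^ 2)⁻¹ := by
  have hpos : 0 < 1 + x ^ 2 := by positivity
  rw [← div_eq_mul_inv, le_div_iff₀ hpos]
  by_cases hx : x ^ 2 ≤ 7
  · have h1 := w_le_one x
    have h0 := w_nonneg x
    nlinarith
  · have hx0 : x ≠ 0 := by
      rintro rfl
      apply hx
      norm_num
    have hx2 : x / 2 ≠ 0 := by
      simpa using hx0
    have hw : w x = 4 * Real.sin (x / 2) ^ 2 / x ^ 2 := by
      unfold w
      rw [Real.sinc_of_ne_zero hx2]
      field_simp
      ring
    have hs : Real.sin (x / 2) ^ 2 ≤ 1 := by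
      have := Real.sin_sq_add_cos_sq (x / 2)
      nlinarith [sq_nonneg (Real.cos (x / 2))]
    rw [hw, div_mul_eq_mul_div, div_le_iff₀ (by positivity)]
    push Not at hx
    nlinarith [sq_nonneg x, sq_nonneg (Real.sin (x / 2))]

lemma w_integrable : Integrable w := by
  refine Integrable.mono' (integrable_inv_one_add_sq.const_mul 8) w_continuous.aestronglyMeasurable ?_
  filter_upwards with x
  rw [Real.norm_of_nonneg (w_nonneg x)]
  exact w_le x

/-- total mass -/
noncomputable def kap : ℝ := ∫ x, w x

lemma kap_pos : 0 < kap := by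
  have h := (integral_pos_iff_support_of_nonneg (f := w) (μ := volume) w_nonneg w_integrable).mpr ?_
  · exact h
  · have h0 : (Function.support w).Nonempty := ⟨0, by simp [w]⟩
    exact (w_continuous.isOpen_support).measure_pos volume h0

/-- central mass -/
noncomputable def kapc (r : ℝ) : ℝ := ∫ x in (-r)..r, w x

lemma kapc_tendsto : Tendsto kapc atTop (𝓝 kap) := by
  have := intervalIntegral_tendsto_integral (μ := volume) w_integrable
    (tendsto_neg_atTop_atBot) (tendsto_id (α := ℝ) (x := atTop))
  exact this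

lemma kapc_nonneg {r : ℝ} (hr : 0 ≤ r) : 0 ≤ kapc r :=
  intervalIntegral.integral_nonneg (by linarith) fun x _ => w_nonneg x

lemma kapc_le {r : ℝ} (hr : 0 ≤ r) : kapc r ≤ kap := by
  unfold kapc kap
  rw [intervalIntegral.integral_of_le (by linarith)]
  exact setIntegral_le_integral w_integrable (Eventually.of_forall w_nonneg)

/-- scaled weight -/
noncomputable def wl (l x : ℝ) : ℝ := l * w (l * x)

lemma wl_nonneg {l : ℝ} (hl : 0 ≤ l) (x : ℝ) : 0 ≤ wl l x := mul_nonneg hl (w_nonneg _)

lemma wl_continuous (l : ℝ) : Continuous (wl l) :=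
  continuous_const.mul (w_continuous.comp (continuous_const.mul continuous_id))

lemma wl_integrable {l : ℝ} (hl : 0 < l) : Integrable (wl l) :=
  (w_integrable.comp_mul_left' hl.ne').const_mul l

lemma integral_wl {l : ℝ} (hl : 0 < l) : ∫ x, wl l x = kap := by
  unfold wl
  rw [integral_const_mul, Measure.integral_comp_mul_left w l, abs_of_pos (inv_pos.mpr hl)]
  simp only [smul_eq_mul, kap]
  field_simp

lemma intervalIntegral_wl (l : ℝ) (d : ℝ) :
    ∫ x in (-d)..d, wl l x = kapc (l * d) := by
  unfold wl kapc
  rw [intervalIntegral.integral_const_mul, intervalIntegral.mul_integral_comp_mul_left]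
  congr 1
  ring

lemma integral_cos_aux {l : ℝ} (hl : 0 < l) (x : ℝ) :
    ∫ t in (0:ℝ)..l, (1 - t / l) * Real.cos (t * x) = l / 2 * Real.sinc (l * x / 2) ^ 2 := by
  by_cases hx : x = 0
  · subst hx
    simp only [mul_zero, Real.cos_zero, mul_one, zero_div, Real.sinc_zero, one_pow]
    have : ∫ t in (0:ℝ)..l, (1 - t / l) = (l - l ^ 2 / (2 * l)) - (0 - 0 ^ 2 / (2 * l)) := by
      apply intervalIntegral.integral_eq_sub_of_hasDerivAt
        (f := fun t => t - t ^ 2 / (2 * l))
      · intro t _
        have h1 : HasDerivAt (fun t : ℝ => t ^ 2 / (2 * l)) (2 * t / (2 * l)) t := by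
          simpa using (hasDerivAt_pow 2 t).div_const (2 * l)
        have h2 := (hasDerivAt_id t).sub h1
        exact h2.congr_deriv (by field_simp)
      · apply Continuous.intervalIntegrable
        fun_prop
    rw [this]
    field_simp
    ring
  · have hlx : l * x / 2 ≠ 0 := by positivity
    have : ∫ t in (0:ℝ)..l, (1 - t / l) * Real.cos (t * x)
        = ((1 - l / l) * (Real.sin (l * x) / x) - Real.cos (l * x) / (l * x ^ 2))
          - ((1 - 0 / l) * (Real.sin (0 * x) / x) - Real.cos (0 * x) / (l * x ^ 2)) := by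
      apply intervalIntegral.integral_eq_sub_of_hasDerivAt
        (f := fun t => (1 - t / l) * (Real.sin (t * x) / x) - Real.cos (t * x) / (l * x ^ 2))
      · intro t _
        have hm : HasDerivAt (fun t : ℝ => t * x) x t := by
          simpa using (hasDerivAt_id t).mul_const x
        have h1 : HasDerivAt (fun t : ℝ => 1 - t / l) (-(1 / l)) t := by
          simpa using ((hasDerivAt_id t).div_const l).const_sub 1
        have h2 : HasDerivAt (fun t : ℝ => Real.sin (t * x) / x) (Real.cos (t * x) * x / x) t :=
          (hm.sin).div_const x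
        have h3 : HasDerivAt (fun t : ℝ => Real.cos (t * x) / (l * x ^ 2))
            (-Real.sin (t * x) * x / (l * x ^ 2)) t := (hm.cos).div_const _
        exact ((h1.mul h2).sub h3).congr_deriv (by field_simp; ring)
      · apply Continuous.intervalIntegrable
        fun_prop
    rw [this, Real.sinc_of_ne_zero hlx]
    have hc : Real.cos (l * x) = 1 - 2 * Real.sin (l * x / 2) ^ 2 := by
      have h := Real.cos_two_mul (l * x / 2)
      rw [show 2 * (l * x / 2) = l * x by ring] at h
      have h2 := Real.sin_sq_add_cos_sq (l * x / 2)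
      nlinarith
    rw [hc]
    simp only [zero_mul, Real.sin_zero, Real.cos_zero]
    field_simp
    ring

lemma kernel_fourier {l : ℝ} (hl : 0 < l) (x : ℝ) :
    ∫ t in (-l)..l, ((1 - |t| / l : ℝ) : ℂ) * Complex.exp (t * x * Complex.I) = (wl l x : ℂ) := by
  have hint : ∀ a b : ℝ, IntervalIntegrable
      (fun t : ℝ => ((1 - |t| / l : ℝ) : ℂ) * Complex.exp (t * x * Complex.I)) volume a b := by
    intro a b
    apply Continuous.intervalIntegrable
    fun_prop
  rw [← intervalIntegral.integral_add_adjacent_intervals (hint (-l) 0) (hint 0 l)]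
  have h1 : ∫ t in (-l)..0, ((1 - |t| / l : ℝ) : ℂ) * Complex.exp (t * x * Complex.I)
      = ∫ t in (0:ℝ)..l, ((1 - |t| / l : ℝ) : ℂ) * Complex.exp (-(t * x * Complex.I)) := by
    have := intervalIntegral.integral_comp_neg (a := 0) (b := l)
      (fun t : ℝ => ((1 - |t| / l : ℝ) : ℂ) * Complex.exp (t * x * Complex.I))
    rw [neg_zero] at this
    rw [← this]
    apply intervalIntegral.integral_congr
    intro t _
    simp only [abs_neg, Complex.ofReal_neg, neg_mul]
  rw [h1, ← intervalIntegral.integral_add]
  · have h2 : ∫ t in (0:ℝ)..l, (((1 - |t| / l : ℝ) : ℂ) * Complex.exp (-(t * x * Complex.I))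
        + ((1 - |t| / l : ℝ) : ℂ) * Complex.exp (t * x * Complex.I))
        = ∫ t in (0:ℝ)..l, ((2 * ((1 - t / l) * Real.cos (t * x)) : ℝ) : ℂ) := by
      apply intervalIntegral.integral_congr
      intro t ht
      rw [uIcc_of_le hl.le] at ht
      simp only [abs_of_nonneg ht.1]
      rw [← mul_add]
      have : Complex.exp (-(t * x * Complex.I)) + Complex.exp (t * x * Complex.I)
          = 2 * Complex.cos (t * x) := by
        rw [Complex.cos, ← neg_mul]
        ring
      rw [this]
      push_cast
      ring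
    rw [h2, intervalIntegral.integral_ofReal, intervalIntegral.integral_const_mul,
      integral_cos_aux hl x]
    unfold wl w
    congr 1
    ring
  · apply Continuous.intervalIntegrable
    fun_prop
  · exact hint 0 l

end Pool.Agent.Helper44.PNT
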