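import Mathlib
import Pool.Agent.Helper44.PNT.Kernel

open MeasureTheory Filter Topology Set

namespace Pool.Agent.Helper44.PNT

/-- partial sums -/
noncomputable def psum (f : ℕ → ℝ) (x : ℝ) : ℝ := ∑ k ∈ Finset.Icc 1 ⌊x⌋₊, f k

/-- normalised partial sums in logarithmic scale -/
noncomputable def S (f : ℕ → ℝ) (t : ℝ) : ℝ := psum f (Real.exp t) * Real.exp (-t)

variable {f : ℕ → ℝ} {A C : ℝ}

lemma psum_mono (hf : ∀ n, 0 ≤ f n) : Monotone (psum f) := by
  intro x y hxy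
  unfold psum
  exact Finset.sum_le_sum_of_subset_of_nonneg
    (Finset.Icc_subset_Icc_right (Nat.floor_le_floor hxy)) fun n _ _ => hf n

lemma psum_nonneg (hf : ∀ n, 0 ≤ f n) (x : ℝ) : 0 ≤ psum f x :=
  Finset.sum_nonneg fun n _ => hf n

lemma S_nonneg (hf : ∀ n, 0 ≤ f n) (t : ℝ) : 0 ≤ S f t :=
  mul_nonneg (psum_nonneg hf _) (Real.exp_pos _).le

lemma C_nonneg (hf : ∀ n, 0 ≤ f n) (hC : ∀ n : ℕ, ∑ k ∈ Finset.Icc 1 n, f k ≤ C * n) : 0 ≤ C := by
  have h := hC 1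
  have h2 : 0 ≤ ∑ k ∈ Finset.Icc 1 1, f k := Finset.sum_nonneg fun n _ => hf n
  simpa using h2.trans h

lemma S_le (hf : ∀ n, 0 ≤ f n) (hC : ∀ n : ℕ, ∑ k ∈ Finset.Icc 1 n, f k ≤ C * n) (t : ℝ) :
    S f t ≤ C := by
  have hC0 := C_nonneg hf hC
  have h1 : psum f (Real.exp t) ≤ C * Real.exp t :=
    (hC _).trans (mul_le_mul_of_nonneg_left (Nat.floor_le (Real.exp_pos t).le) hC0)
  calc S f t ≤ (C * Real.exp t) * Real.exp (-t) :=
        mul_le_mul_of_nonneg_right h1 (Real.exp_pos _).le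
    _ = C := by rw [mul_assoc, ← Real.exp_add]; simp

lemma S_neg {t : ℝ} (ht : t < 0) : S f t = 0 := by
  have : ⌊Real.exp t⌋₊ = 0 := Nat.floor_eq_zero.mpr (by simpa using Real.exp_lt_exp.mpr ht)
  simp [S, psum, this]

lemma S_mono (hf : ∀ n, 0 ≤ f n) {t t' : ℝ} (h : t ≤ t') :
    S f t ≤ S f t' * Real.exp (t' - t) := by
  have h1 := psum_mono hf (Real.exp_le_exp.mpr h)
  have h2 : S f t' * Real.exp (t' - t) = psum f (Real.exp t') * Real.exp (-t) := by
    unfold S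
    rw [mul_assoc, ← Real.exp_add]
    congr 2
    ring
  rw [h2]
  exact mul_le_mul_of_nonneg_right h1 (Real.exp_pos _).le

lemma S_measurable (hf : ∀ n, 0 ≤ f n) : Measurable (S f) := by
  have h1 : Measurable (fun t => psum f (Real.exp t)) :=
    ((psum_mono hf).comp Real.exp_monotone).measurable
  have h2 : Measurable (fun t : ℝ => Real.exp (-t)) := by fun_prop
  exact h1.mul h2

lemma integral_S (hf : ∀ n, 0 ≤ f n) (hC : ∀ n : ℕ, ∑ k ∈ Finset.Icc 1 n, f k ≤ C * n)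
    {s : ℂ} (hs : 1 < s.re) :
    ∫ u in Ioi (0:ℝ), (S f u : ℂ) * Complex.exp (-(s - 1) * u)
      = LSeries (fun n => (f n : ℂ)) s / s := by
  have hs0 : s ≠ 0 := by
    rintro rfl
    norm_num at hs
  have hO : (fun n : ℕ ↦ ∑ k ∈ Finset.Icc 1 n, f k) =O[atTop] fun n ↦ (n : ℝ) ^ (1:ℝ) := by
    refine Asymptotics.IsBigO.of_bound C (Eventually.of_forall fun n => ?_)
    rw [Real.rpow_one, Real.norm_of_nonneg (Finset.sum_nonneg fun n _ => hf n),
      Real.norm_of_nonneg (Nat.cast_nonneg n)]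
    exact hC n
  rw [LSeries_eq_mul_integral_of_nonneg f zero_le_one hs hO hf, mul_div_cancel_left₀ _ hs0]
  have himg : Ioi (1:ℝ) = Real.exp '' Ioi 0 := by
    rw [Real.image_exp_Ioi, Real.exp_zero]
  rw [himg, integral_image_eq_integral_abs_deriv_smul measurableSet_Ioi
    (fun x _ => (Real.hasDerivAt_exp x).hasDerivWithinAt) (Real.exp_injective.injOn)]
  apply setIntegral_congr_fun measurableSet_Ioi
  intro u _
  have he : ((Real.exp u : ℝ) : ℂ) ≠ 0 := by exact_mod_cast (Real.exp_pos u).ne'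
  simp only [S, psum]
  rw [Complex.cpow_def_of_ne_zero he, ← Complex.ofReal_log (Real.exp_pos u).le, Real.log_exp,
    abs_of_pos (Real.exp_pos u), Complex.real_smul]
  push_cast
  rw [show Complex.exp (u:ℂ) * ((∑ k ∈ Finset.Icc 1 ⌊Real.exp u⌋₊, (f k : ℂ)) *
      Complex.exp ((u:ℂ) * -(s + 1)))
      = (∑ k ∈ Finset.Icc 1 ⌊Real.exp u⌋₊, (f k : ℂ)) *
        (Complex.exp (u:ℂ) * Complex.exp ((u:ℂ) * -(s + 1))) by ring,
    ← Complex.exp_add, mul_assoc, ← Complex.exp_add]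
  congr 2
  ring

end Pool.Agent.Helper44.PNT
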