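import Mathlib
import Pool.Agent.Helper44.PNT.WI

open MeasureTheory Filter Topology Set

namespace Pool.Agent.Helper44.PNT

variable {f : ℕ → ℝ} {A C : ℝ} {F : ℂ → ℂ}

/-- the hypotheses of the Wiener-Ikehara theorem -/
structure WIHyp (f : ℕ → ℝ) (A C : ℝ) (F : ℂ → ℂ) : Prop where
  hf : ∀ n, 0 ≤ f n
  hC : ∀ n : ℕ, ∑ k ∈ Finset.Icc 1 n, f k ≤ C * n
  hFc : ContinuousOn F {s | 1 ≤ s.re}
  hF : ∀ s : ℂ, 1 < s.re → F s = LSeries (fun n => (f n : ℂ)) s - A / (s - 1)

/-- `(F s - A) / s`. -/
noncomputable def GG (A : ℝ) (F : ℂ → ℂ) (s : ℂ) : ℂ := (F s - A) / s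

lemma bdd_S_sub (h : WIHyp f A C F) (t : ℝ) : |S f t - A| ≤ C + |A| := by
  have h1 := S_nonneg h.hf t
  have h2 := S_le h.hf h.hC t
  have h3 := C_nonneg h.hf h.hC
  calc |S f t - A| ≤ |S f t| + |A| := abs_sub _ _
    _ ≤ C + |A| := by rw [abs_of_nonneg h1]; linarith

lemma integrableOn_exp_neg {z : ℂ} (hz : 0 < z.re) :
    IntegrableOn (fun u : ℝ => Complex.exp (-z * u)) (Ioi 0) := by
  exact integrableOn_exp_mul_complex_Ioi (a := -z) (by simpa using hz) 0

lemma integrableOn_S_sub_exp (h : WIHyp f A C F) {z : ℂ} (hz : 0 < z.re) :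
    IntegrableOn (fun u : ℝ => ((S f u - A : ℝ) : ℂ) * Complex.exp (-z * u)) (Ioi 0) := by
  have h1 := integrableOn_exp_neg hz
  refine Integrable.bdd_mul (c := C + |A|) h1 ?_ ?_
  · exact (Complex.measurable_ofReal.comp
      ((S_measurable h.hf).sub measurable_const)).aestronglyMeasurable
  · filter_upwards with u
    rw [Complex.norm_real]
    exact bdd_S_sub h u

lemma integrableOn_S_exp (h : WIHyp f A C F) {z : ℂ} (hz : 0 < z.re) :
    IntegrableOn (fun u : ℝ => (S f u : ℂ) * Complex.exp (-z * u)) (Ioi 0) := by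
  have h1 := integrableOn_exp_neg hz
  refine Integrable.bdd_mul (c := C) h1 ?_ ?_
  · exact (Complex.measurable_ofReal.comp (S_measurable h.hf)).aestronglyMeasurable
  · filter_upwards with u
    rw [Complex.norm_real, Real.norm_of_nonneg (S_nonneg h.hf _)]
    exact S_le h.hf h.hC u

lemma integral_S_sub (h : WIHyp f A C F) {z : ℂ} (hz : 0 < z.re) :
    ∫ u in Ioi (0:ℝ), ((S f u - A : ℝ) : ℂ) * Complex.exp (-z * u) = GG A F (1 + z) := by
  have hz0 : z ≠ 0 := by
    rintro rfl
    simp at hz
  have hs : 1 < (1 + z).re := by simpa using hz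
  have hs0 : 1 + z ≠ 0 := by
    intro h0
    rw [h0] at hs
    norm_num at hs
  have e1 := integral_S h.hf h.hC hs
  rw [show -(1 + z - 1) = -z by ring] at e1
  have e2 : ∫ u in Ioi (0:ℝ), (A:ℂ) * Complex.exp (-z * u) = A / z := by
    rw [integral_const_mul, integral_exp_mul_complex_Ioi (a := -z) (by simpa using hz) 0]
    simp only [Complex.ofReal_zero, mul_zero, Complex.exp_zero]
    field_simp
  have e3 : ∀ u : ℝ, ((S f u - A : ℝ) : ℂ) * Complex.exp (-z * u)
      = (S f u : ℂ) * Complex.exp (-z * u) - (A:ℂ) * Complex.exp (-z * u) := by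
    intro u
    push_cast
    ring
  simp only [e3]
  rw [integral_sub (integrableOn_S_exp h hz) ((integrableOn_exp_neg hz).const_mul _), e1, e2]
  unfold GG
  rw [h.hF _ hs]
  simp only [add_sub_cancel_left]
  field_simp
  ring

/-- Fubini step -/
lemma fubini (h : WIHyp f A C F) {l e : ℝ} (hl : 0 < l) (he : 0 < e) (y : ℝ) :
    ∫ t in (-l)..l, ((1 - |t| / l : ℝ) : ℂ) * Complex.exp (t * y * Complex.I)
        * GG A F (1 + (e + t * Complex.I))
      = ∫ u in Ioi (0:ℝ), (((S f u - A) * Real.exp (-e * u) * wl l (y - u) : ℝ) : ℂ) := by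
  have step1 : ∀ t : ℝ, ((1 - |t| / l : ℝ) : ℂ) * Complex.exp (t * y * Complex.I)
        * GG A F (1 + (e + t * Complex.I))
      = ∫ u in Ioi (0:ℝ), (((S f u - A) * Real.exp (-e * u) : ℝ) : ℂ) *
          (((1 - |t| / l : ℝ) : ℂ) * Complex.exp (t * (y - u : ℝ) * Complex.I)) := by
    intro t
    rw [← integral_S_sub h (z := e + t * Complex.I) (by simpa using he), ← integral_const_mul]
    apply setIntegral_congr_fun measurableSet_Ioi
    intro u _
    have : Complex.exp (t * y * Complex.I) * Complex.exp (-(e + t * Complex.I) * u)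
        = Complex.exp (-e * u) * Complex.exp (t * (y - u : ℝ) * Complex.I) := by
      rw [← Complex.exp_add, ← Complex.exp_add]
      congr 1
      push_cast
      ring
    simp only []
    calc ((1 - |t| / l : ℝ) : ℂ) * Complex.exp (t * y * Complex.I)
          * (((S f u - A : ℝ) : ℂ) * Complex.exp (-(e + t * Complex.I) * u))
        = ((1 - |t| / l : ℝ) : ℂ) * ((S f u - A : ℝ) : ℂ) *
          (Complex.exp (t * y * Complex.I) * Complex.exp (-(e + t * Complex.I) * u)) := by ring
      _ = _ := by
        rw [this]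
        push_cast
        ring
  simp only [step1]
  rw [intervalIntegral.integral_of_le (by linarith : -l ≤ l)]
  rw [integral_integral_swap]
  · apply setIntegral_congr_fun measurableSet_Ioi
    intro u _
    simp only []
    rw [integral_const_mul, ← intervalIntegral.integral_of_le (by linarith : -l ≤ l),
      kernel_fourier hl (y - u)]
    push_cast
    ring
  · -- integrability on the product
    have hg : Integrable (fun t : ℝ => (1:ℝ)) (volume.restrict (Ioc (-l) l)) := by
      simp
    have hh : Integrable (fun u : ℝ => (C + |A|) * Real.exp (-e * u)) (volume.restrict (Ioi 0)) := by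
      apply Integrable.const_mul
      exact integrableOn_exp_mul_Ioi (a := -e) (by linarith) 0
    have hprod := hg.mul_prod hh
    refine Integrable.mono' hprod ?_ ?_
    · apply Measurable.aestronglyMeasurable
      have hS := S_measurable (f := f) h.hf
      unfold Function.uncurry
      apply Measurable.mul
      · apply Complex.measurable_ofReal.comp
        apply Measurable.mul
        · exact (hS.comp measurable_snd).sub measurable_const
        · fun_prop
      · fun_prop
    · have hae : ∀ᵐ p ∂((volume.restrict (Ioc (-l) l)).prod (volume.restrict (Ioi (0:ℝ)))),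
          p ∈ (Ioc (-l) l) ×ˢ (Ioi (0:ℝ)) := by
        rw [Measure.prod_restrict]
        exact ae_restrict_mem (measurableSet_Ioc.prod measurableSet_Ioi)
      filter_upwards [hae] with p hp
      obtain ⟨⟨hp1, hp2⟩, hp3⟩ := hp
      simp only [Function.uncurry, norm_mul, Complex.norm_real, Real.norm_eq_abs, one_mul]
      have hexp : ‖Complex.exp (p.1 * (p.2 |> fun u => ((y - u : ℝ) : ℂ)) * Complex.I)‖ = 1 := by
        have := Complex.norm_exp_ofReal_mul_I (p.1 * (y - p.2))
        simpa using this
      simp only [] at hexp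
      rw [hexp, mul_one]
      have h1 : |(S f p.2 - A)| ≤ C + |A| := bdd_S_sub h _
      have h2 : |1 - |p.1| / l| ≤ 1 := by
        have ha : |p.1| ≤ l := abs_le.mpr ⟨hp1.le, hp2⟩
        have hb : |p.1| / l ≤ 1 := (div_le_one hl).mpr ha
        have hc : 0 ≤ |p.1| / l := by positivity
        rw [abs_le]
        constructor <;> linarith
      rw [abs_of_pos (Real.exp_pos _)]
      have h3 := (Real.exp_pos (-e * p.2)).le
      have h4 := C_nonneg h.hf h.hC
      calc |S f p.2 - A| * Real.exp (-e * p.2) * |1 - |p.1| / l|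
          ≤ (C + |A|) * Real.exp (-e * p.2) * 1 := by
            apply mul_le_mul _ h2 (abs_nonneg _) (by positivity)
            exact mul_le_mul_of_nonneg_right h1 h3
        _ = _ := by ring

end Pool.Agent.Helper44.PNT
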