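import Mathlib
import Pool.Agent.Helper44.PNT.WI2

open MeasureTheory Filter Topology Set

namespace Pool.Agent.Helper44.PNT

variable {f : ℕ → ℝ} {A C : ℝ} {F : ℂ → ℂ}

lemma GG_continuousOn (h : WIHyp f A C F) : ContinuousOn (GG A F) {s | 1 ≤ s.re} := by
  unfold GG
  apply ContinuousOn.div
  · exact h.hFc.sub continuousOn_const
  · exact continuousOn_id
  · rintro s hs rfl
    have hs' : (1:ℝ) ≤ (0:ℂ).re := hs
    rw [Complex.zero_re] at hs'
    linarith

lemma line_mem {e : ℝ} (he : 0 ≤ e) (t : ℝ) :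
    (1 + ((e : ℂ) + t * Complex.I) : ℂ) ∈ {s : ℂ | 1 ≤ s.re} := by
  simpa using he

lemma line_continuous : Continuous (fun p : ℝ × ℝ => (1 + (p.1 + p.2 * Complex.I) : ℂ)) := by
  fun_prop

lemma GG_bdd (h : WIHyp f A C F) (l : ℝ) :
    ∃ K, ∀ e ∈ Icc (0:ℝ) 1, ∀ t ∈ Icc (-l) l, ‖GG A F (1 + (e + t * Complex.I))‖ ≤ K := by
  have hc : IsCompact (Icc (0:ℝ) 1 ×ˢ Icc (-l) l) := isCompact_Icc.prod isCompact_Icc
  have hcont : ContinuousOn (fun p : ℝ × ℝ => GG A F (1 + (p.1 + p.2 * Complex.I)))
      (Icc (0:ℝ) 1 ×ˢ Icc (-l) l) := by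
    apply (GG_continuousOn h).comp line_continuous.continuousOn
    rintro ⟨e, t⟩ ⟨he, ht⟩
    simpa using he.1
  obtain ⟨K, hK⟩ := hc.exists_bound_of_continuousOn hcont
  exact ⟨K, fun e he t ht => hK (e, t) ⟨he, ht⟩⟩

lemma lhs_tendsto (h : WIHyp f A C F) {l : ℝ} (hl : 0 < l) (y : ℝ) :
    Tendsto (fun n : ℕ => ∫ t in (-l)..l, ((1 - |t| / l : ℝ) : ℂ) * Complex.exp (t * y * Complex.I)
        * GG A F (1 + (((1 / ((n:ℝ) + 1) : ℝ) : ℂ) + t * Complex.I))) atTop
      (𝓝 (∫ t in (-l)..l, ((1 - |t| / l : ℝ) : ℂ) * Complex.exp (t * y * Complex.I)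
        * GG A F (1 + (((0 : ℝ) : ℂ) + t * Complex.I)))) := by
  obtain ⟨K, hK⟩ := GG_bdd h l
  have hll : -l ≤ l := by linarith
  have hpos : ∀ n : ℕ, (1 / ((n:ℝ) + 1) : ℝ) ∈ Icc (0:ℝ) 1 := by
    intro n
    constructor
    · positivity
    · rw [div_le_one (by positivity)]
      linarith [Nat.cast_nonneg (α := ℝ) n]
  apply intervalIntegral.tendsto_integral_filter_of_dominated_convergence (fun _ => K)
  · filter_upwards with n
    apply ContinuousOn.aestronglyMeasurable _ measurableSet_uIoc
    apply ContinuousOn.mul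
    · fun_prop
    · apply (GG_continuousOn h).comp (by fun_prop)
      intro t _
      exact line_mem (hpos n).1 t
  · filter_upwards with n
    filter_upwards with t ht
    rw [uIoc_of_le hll] at ht
    rw [norm_mul, norm_mul, Complex.norm_real, Real.norm_eq_abs]
    have hexp : ‖Complex.exp (t * y * Complex.I)‖ = 1 := by
      have := Complex.norm_exp_ofReal_mul_I (t * y)
      simpa using this
    have h2 : |1 - |t| / l| ≤ 1 := by
      have ha : |t| ≤ l := abs_le.mpr ⟨ht.1.le, ht.2⟩
      have hb : |t| / l ≤ 1 := (div_le_one hl).mpr ha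
      have hc : 0 ≤ |t| / l := by positivity
      rw [abs_le]
      constructor <;> linarith
    have h3 := hK _ (hpos n) t ⟨ht.1.le, ht.2⟩
    rw [hexp, mul_one]
    calc |1 - |t| / l| * ‖GG A F (1 + (((1 / ((n:ℝ) + 1) : ℝ) : ℂ) + t * Complex.I))‖
        ≤ 1 * K := mul_le_mul h2 h3 (norm_nonneg _) zero_le_one
      _ = K := one_mul K
  · exact intervalIntegrable_const
  · filter_upwards with t ht
    apply Tendsto.const_mul
    have h1 : Tendsto (fun n : ℕ => (1 + (((1 / ((n:ℝ) + 1) : ℝ) : ℂ) + t * Complex.I) : ℂ)) atTop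
        (𝓝[{s | 1 ≤ s.re}] (1 + (((0:ℝ) : ℂ) + t * Complex.I))) := by
      apply tendsto_nhdsWithin_iff.mpr
      constructor
      · apply Tendsto.const_add
        apply Tendsto.add_const
        exact (Complex.continuous_ofReal.tendsto 0).comp tendsto_one_div_add_atTop_nhds_zero_nat
      · filter_upwards with n
        exact line_mem (hpos n).1 t
    exact ((GG_continuousOn h) _ (by simp)).tendsto.comp h1

lemma rhs_tendsto (h : WIHyp f A C F) {l : ℝ} (hl : 0 < l) (y : ℝ) :
    Tendsto (fun n : ℕ => ∫ u in Ioi (0:ℝ),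
        (((S f u - A) * Real.exp (-(1 / ((n:ℝ) + 1)) * u) * wl l (y - u) : ℝ) : ℂ)) atTop
      (𝓝 (∫ u in Ioi (0:ℝ), (((S f u - A) * wl l (y - u) : ℝ) : ℂ))) := by
  have hwl : Integrable (fun u => wl l (y - u)) := (wl_integrable hl).comp_sub_left y
  have hS := S_measurable (f := f) h.hf
  have hwm : Measurable (fun u => wl l (y - u)) :=
    ((wl_continuous l).comp (continuous_const.sub continuous_id)).measurable
  apply tendsto_integral_filter_of_dominated_convergence (fun u => (C + |A|) * wl l (y - u))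
  · filter_upwards with n
    apply Measurable.aestronglyMeasurable
    apply Complex.measurable_ofReal.comp
    apply Measurable.mul
    · apply Measurable.mul
      · exact hS.sub measurable_const
      · fun_prop
    · exact hwm
  · filter_upwards with n
    filter_upwards [ae_restrict_mem measurableSet_Ioi] with u hu
    have hw0 : 0 ≤ wl l (y - u) := wl_nonneg hl.le _
    rw [Complex.norm_real, Real.norm_eq_abs, abs_mul, abs_mul, abs_of_pos (Real.exp_pos _),
      abs_of_nonneg hw0]
    apply mul_le_mul_of_nonneg_right _ hw0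
    have h1 := bdd_S_sub h u
    have h2 : Real.exp (-(1 / ((n:ℝ) + 1)) * u) ≤ 1 := by
      rw [Real.exp_le_one_iff]
      have : 0 < 1 / ((n:ℝ) + 1) := by positivity
      have hu' : 0 < u := hu
      nlinarith
    calc |S f u - A| * Real.exp (-(1 / ((n:ℝ) + 1)) * u)
        ≤ (C + |A|) * 1 := mul_le_mul h1 h2 (Real.exp_pos _).le ((abs_nonneg _).trans h1)
      _ = _ := mul_one _
  · exact (hwl.const_mul _).restrict
  · filter_upwards with u
    apply (Complex.continuous_ofReal.tendsto _).comp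
    apply Tendsto.mul_const
    have : Tendsto (fun n : ℕ => (S f u - A) * Real.exp (-(1 / ((n:ℝ) + 1)) * u)) atTop
        (𝓝 ((S f u - A) * Real.exp (-(0:ℝ) * u))) := by
      apply Tendsto.const_mul
      apply (Real.continuous_exp.tendsto _).comp
      apply Tendsto.mul_const
      exact tendsto_one_div_add_atTop_nhds_zero_nat.neg
    simpa using this

/-- the key identity on the line -/
lemma key_identity (h : WIHyp f A C F) {l : ℝ} (hl : 0 < l) (y : ℝ) :
    ∫ t in (-l)..l, ((1 - |t| / l : ℝ) : ℂ) * Complex.exp (t * y * Complex.I)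
        * GG A F (1 + (((0 : ℝ) : ℂ) + t * Complex.I))
      = ((∫ u in Ioi (0:ℝ), (S f u - A) * wl l (y - u) : ℝ) : ℂ) := by
  have h1 := lhs_tendsto h hl y
  have h2 := rhs_tendsto h hl y
  have h3 : ∀ n : ℕ, _ := fun n : ℕ => fubini h hl (e := 1 / ((n:ℝ) + 1)) (by positivity) y
  have h4 := tendsto_nhds_unique (h1.congr h3) h2
  rw [h4, ← integral_complex_ofReal]

lemma H_tendsto (h : WIHyp f A C F) {l : ℝ} (hl : 0 < l) :
    Tendsto (fun y : ℝ => ∫ u in Ioi (0:ℝ), (S f u - A) * wl l (y - u)) atTop (𝓝 0) := by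
  have hll : -l ≤ l := by linarith
  let g : ℝ → ℂ := indicator (Ioc (-l) l) (fun t => ((1 - |t| / l : ℝ) : ℂ)
        * GG A F (1 + (((0 : ℝ) : ℂ) + t * Complex.I)))
  have h1 := Real.tendsto_integral_exp_smul_cocompact g
  have h2 : Tendsto (fun y : ℝ => -(y / (2 * Real.pi))) atTop (cocompact ℝ) := by
    have : Tendsto (fun y : ℝ => -(y / (2 * Real.pi))) atTop atBot := by
      apply tendsto_neg_atTop_atBot.comp
      exact tendsto_id.atTop_div_const (by positivity)
    exact this.mono_right atBot_le_cocompact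
  have h3 := h1.comp h2
  have h4 : ∀ y : ℝ, ((fun w : ℝ => ∫ v : ℝ, (Real.fourierChar (-(v * w)) : Circle) • g v) ∘
      (fun y : ℝ => -(y / (2 * Real.pi)))) y
      = ((∫ u in Ioi (0:ℝ), (S f u - A) * wl l (y - u) : ℝ) : ℂ) := by
    intro y
    rw [← key_identity h hl y, intervalIntegral.integral_of_le hll,
      ← integral_indicator measurableSet_Ioc]
    simp only [Function.comp]
    apply integral_congr_ae
    filter_upwards with t
    simp only [g]
    by_cases ht : t ∈ Ioc (-l) l
    · rw [indicator_of_mem ht, indicator_of_mem ht, Circle.smul_def, Real.fourierChar_apply,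
        smul_eq_mul]
      have : ((2 * Real.pi * -(t * -(y / (2 * Real.pi))) : ℝ) : ℂ) * Complex.I
          = t * y * Complex.I := by
        have hpi : (Real.pi : ℂ) ≠ 0 := by exact_mod_cast Real.pi_ne_zero
        push_cast
        field_simp
      rw [this]
      ring
    · rw [indicator_of_notMem ht, indicator_of_notMem ht, smul_zero]
  have h5 := h3.congr h4
  have h6 := (Complex.continuous_re.tendsto 0).comp h5
  simpa [Function.comp_def] using h6

end Pool.Agent.Helper44.PNT
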