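import Mathlib
import Pool.Agent.Helper44.PNT.WI3

open MeasureTheory Filter Topology Set

namespace Pool.Agent.Helper44.PNT

variable {f : ℕ → ℝ} {A C : ℝ} {F : ℂ → ℂ}

lemma tail_wl_tendsto {l : ℝ} (hl : 0 < l) :
    Tendsto (fun y : ℝ => ∫ u in Ioi (0:ℝ), wl l (y - u)) atTop (𝓝 kap) := by
  have h1 : ∀ y : ℝ, ∫ v in Iio y, wl l v = ∫ u in Ioi (0:ℝ), wl l (y - u) := by
    intro y
    rw [← integral_indicator measurableSet_Iio, ← integral_indicator measurableSet_Ioi,
      ← integral_sub_left_eq_self _ volume y]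
    apply integral_congr_ae
    filter_upwards with u
    by_cases hu : u ∈ Ioi (0:ℝ)
    · rw [indicator_of_mem hu, indicator_of_mem]
      simpa using hu
    · rw [indicator_of_notMem hu, indicator_of_notMem]
      simpa using hu
  have h2 : Tendsto (fun y : ℝ => ∫ v in Iio y, wl l v) atTop (𝓝 (∫ v, wl l v)) :=
    (aecover_Iio (μ := volume) (tendsto_id (α := ℝ) (x := atTop))).integral_tendsto_of_countably_generated
      (wl_integrable hl)
  rw [integral_wl hl] at h2
  exact h2.congr h1

/-- smoothed normalised partial sum -/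
noncomputable def Q (f : ℕ → ℝ) (l y : ℝ) : ℝ := ∫ v, S f (y - v) * wl l v

lemma Q_integrand_integrable (h : WIHyp f A C F) {l : ℝ} (hl : 0 < l) (y : ℝ) :
    Integrable (fun v => S f (y - v) * wl l v) := by
  refine Integrable.bdd_mul (c := C) (wl_integrable hl) ?_ ?_
  · exact ((S_measurable h.hf).comp (measurable_const.sub measurable_id)).aestronglyMeasurable
  · filter_upwards with v
    rw [Real.norm_of_nonneg (S_nonneg h.hf _)]
    exact S_le h.hf h.hC _

lemma Q_eq (h : WIHyp f A C F) {l : ℝ} (hl : 0 < l) (y : ℝ) :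
    Q f l y = (∫ u in Ioi (0:ℝ), (S f u - A) * wl l (y - u))
      + A * ∫ u in Ioi (0:ℝ), wl l (y - u) := by
  have hwl : Integrable (fun u => wl l (y - u)) := (wl_integrable hl).comp_sub_left y
  have hSi : Integrable (fun u => S f u * wl l (y - u)) := by
    refine Integrable.bdd_mul (c := C) hwl ?_ ?_
    · exact (S_measurable h.hf).aestronglyMeasurable
    · filter_upwards with v
      rw [Real.norm_of_nonneg (S_nonneg h.hf _)]
      exact S_le h.hf h.hC _
  have h1 : ∫ u in Ioi (0:ℝ), S f u * wl l (y - u) = ∫ u, S f u * wl l (y - u) := by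
    rw [← integral_Ici_eq_integral_Ioi]
    apply setIntegral_eq_integral_of_forall_compl_eq_zero
    intro x hx
    have hx' : x < 0 := by simpa using hx
    rw [S_neg hx', zero_mul]
  have h2 : Q f l y = ∫ u, S f u * wl l (y - u) := by
    unfold Q
    rw [← integral_sub_left_eq_self (fun u => S f u * wl l (y - u)) volume y]
    simp
  rw [h2, ← h1, ← integral_const_mul, ← integral_add]
  · apply setIntegral_congr_fun measurableSet_Ioi
    intro u _
    simp only []
    ring
  · have e : (fun u => (S f u - A) * wl l (y - u)) =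
        fun u => S f u * wl l (y - u) - A * wl l (y - u) := by
      funext u
      ring
    rw [e]
    exact (hSi.sub (hwl.const_mul A)).restrict
  · exact (hwl.const_mul A).restrict

lemma Q_tendsto (h : WIHyp f A C F) {l : ℝ} (hl : 0 < l) :
    Tendsto (Q f l) atTop (𝓝 (A * kap)) := by
  have h1 := (H_tendsto h hl).add ((tail_wl_tendsto hl).const_mul A)
  rw [zero_add] at h1
  exact h1.congr fun y => (Q_eq h hl y).symm

/-- upper Tauberian inequality -/
lemma S_upper (h : WIHyp f A C F) {l d : ℝ} (hl : 0 < l) (hd : 0 < d) (y : ℝ) :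
    S f y * kapc (l * d) ≤ Real.exp (2 * d) * Q f l (y + d) := by
  have h1 : ∫ v in (-d)..d, S f y * Real.exp (-(2 * d)) * wl l v
      ≤ ∫ v, S f (y + d - v) * wl l v := by
    rw [intervalIntegral.integral_of_le (by linarith)]
    refine le_trans ?_ (setIntegral_le_integral (s := Ioc (-d) d)
      (Q_integrand_integrable h hl (y + d)) ?_)
    · apply setIntegral_mono_on
      · exact ((wl_integrable hl).const_mul _).integrableOn
      · exact (Q_integrand_integrable h hl (y + d)).integrableOn
      · exact measurableSet_Ioc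
      · intro v hv
        apply mul_le_mul_of_nonneg_right _ (wl_nonneg hl.le v)
        have h2 := S_mono h.hf (t := y) (t' := y + d - v) (by linarith [hv.2])
        have h3 : S f y * Real.exp (-(y + d - v - y)) ≤ S f (y + d - v) := by
          have h4 := mul_le_mul_of_nonneg_right h2 (Real.exp_pos (-(y + d - v - y))).le
          rwa [mul_assoc, ← Real.exp_add, add_neg_cancel, Real.exp_zero, mul_one] at h4
        refine le_trans ?_ h3
        apply mul_le_mul_of_nonneg_left _ (S_nonneg h.hf y)
        apply Real.exp_le_exp.mpr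
        linarith [hv.1]
    · filter_upwards with v
      exact mul_nonneg (S_nonneg h.hf _) (wl_nonneg hl.le v)
  rw [intervalIntegral.integral_const_mul, intervalIntegral_wl] at h1
  have h2 := mul_le_mul_of_nonneg_left h1 (Real.exp_pos (2 * d)).le
  calc S f y * kapc (l * d)
      = Real.exp (2 * d) * (S f y * Real.exp (-(2 * d)) * kapc (l * d)) := by
        rw [show Real.exp (2 * d) * (S f y * Real.exp (-(2 * d)) * kapc (l * d))
          = (Real.exp (2 * d) * Real.exp (-(2 * d))) * (S f y * kapc (l * d)) by ring,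
          ← Real.exp_add, add_neg_cancel, Real.exp_zero, one_mul]
    _ ≤ _ := h2

lemma S_lower (h : WIHyp f A C F) {l d : ℝ} (hl : 0 < l) (hd : 0 < d) (y : ℝ) :
    Q f l (y - d) ≤ S f y * Real.exp (2 * d) * kap + C * (kap - kapc (l * d)) := by
  have hC0 := C_nonneg h.hf h.hC
  have hI := Q_integrand_integrable h hl (y - d)
  have h1 : Q f l (y - d) = (∫ v in Ioc (-d) d, S f (y - d - v) * wl l v)
      + ∫ v in (Ioc (-d) d)ᶜ, S f (y - d - v) * wl l v := by
    unfold Q
    rw [integral_add_compl measurableSet_Ioc hI]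
  have h2 : ∫ v in Ioc (-d) d, S f (y - d - v) * wl l v
      ≤ S f y * Real.exp (2 * d) * kap := by
    calc ∫ v in Ioc (-d) d, S f (y - d - v) * wl l v
        ≤ ∫ v in Ioc (-d) d, S f y * Real.exp (2 * d) * wl l v := by
          apply setIntegral_mono_on hI.integrableOn
            ((wl_integrable hl).const_mul _).integrableOn measurableSet_Ioc
          intro v hv
          apply mul_le_mul_of_nonneg_right _ (wl_nonneg hl.le v)
          have h3 := S_mono h.hf (t := y - d - v) (t' := y) (by linarith [hv.1])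
          refine h3.trans ?_
          apply mul_le_mul_of_nonneg_left _ (S_nonneg h.hf y)
          apply Real.exp_le_exp.mpr
          linarith [hv.2]
      _ ≤ ∫ v, S f y * Real.exp (2 * d) * wl l v := by
          apply setIntegral_le_integral ((wl_integrable hl).const_mul _)
          filter_upwards with v
          exact mul_nonneg (mul_nonneg (S_nonneg h.hf _) (Real.exp_pos _).le) (wl_nonneg hl.le v)
      _ = _ := by rw [integral_const_mul, integral_wl hl]
  have h4 : ∫ v in (Ioc (-d) d)ᶜ, S f (y - d - v) * wl l v ≤ C * (kap - kapc (l * d)) := by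
    calc ∫ v in (Ioc (-d) d)ᶜ, S f (y - d - v) * wl l v
        ≤ ∫ v in (Ioc (-d) d)ᶜ, C * wl l v := by
          apply setIntegral_mono_on hI.integrableOn
            ((wl_integrable hl).const_mul _).integrableOn measurableSet_Ioc.compl
          intro v _
          exact mul_le_mul_of_nonneg_right (S_le h.hf h.hC _) (wl_nonneg hl.le v)
      _ = C * ∫ v in (Ioc (-d) d)ᶜ, wl l v := integral_const_mul _ _
      _ = C * (kap - kapc (l * d)) := by
          rw [setIntegral_compl measurableSet_Ioc (wl_integrable hl), integral_wl hl,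
            ← intervalIntegral.integral_of_le (by linarith), intervalIntegral_wl]
  rw [h1]
  exact add_le_add h2 h4

lemma eventually_lt (h : WIHyp f A C F) {a : ℝ} (ha : A < a) : ∀ᶠ y in atTop, S f y < a := by
  -- choose d
  have hd : ∃ d : ℝ, 0 < d ∧ Real.exp (2 * d) * A < a := by
    have h1 : Tendsto (fun d : ℝ => Real.exp (2 * d) * A) (𝓝 0) (𝓝 (Real.exp (2 * 0) * A)) := by
      apply Continuous.tendsto
      fun_prop
    rw [mul_zero, Real.exp_zero, one_mul] at h1
    have h2 := (h1.eventually (gt_mem_nhds ha)).filter_mono (nhdsWithin_le_nhds (s := Ioi 0))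
    obtain ⟨d, hd1, hd2⟩ := (h2.and self_mem_nhdsWithin).exists
    exact ⟨d, hd2, hd1⟩
  obtain ⟨d, hd0, hd1⟩ := hd
  have hr : ∃ r : ℝ, 0 < r ∧ 0 < kapc r ∧ Real.exp (2 * d) * (A * kap) < a * kapc r := by
    have h1 : Tendsto (fun r => a * kapc r) atTop (𝓝 (a * kap)) := kapc_tendsto.const_mul a
    have h2 : Real.exp (2 * d) * (A * kap) < a * kap := by
      rw [← mul_assoc]
      exact mul_lt_mul_of_pos_right hd1 kap_pos
    have h3 := h1.eventually (lt_mem_nhds h2)
    have h4 := kapc_tendsto.eventually (lt_mem_nhds kap_pos)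
    obtain ⟨r, hr1, hr2, hr3⟩ := (h3.and (h4.and (eventually_gt_atTop 0))).exists
    exact ⟨r, hr3, hr2, hr1⟩
  obtain ⟨r, hr0, hr1, hr2⟩ := hr
  have hl : 0 < r / d := div_pos hr0 hd0
  have hld : r / d * d = r := by field_simp
  have hQ := (Q_tendsto h hl).comp (tendsto_atTop_add_const_right atTop d tendsto_id)
  have hQ2 := hQ.const_mul (Real.exp (2 * d))
  filter_upwards [hQ2.eventually (gt_mem_nhds hr2)] with y hy
  have h5 := S_upper h hl hd0 y
  rw [hld] at h5
  simp only [Function.comp, id] at hy
  have h6 : S f y * kapc r < a * kapc r := h5.trans_lt hy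
  exact lt_of_mul_lt_mul_right h6 hr1.le

lemma eventually_gt (h : WIHyp f A C F) {a : ℝ} (ha : a < A) : ∀ᶠ y in atTop, a < S f y := by
  have hd : ∃ d : ℝ, 0 < d ∧ Real.exp (2 * d) * a < A := by
    have h1 : Tendsto (fun d : ℝ => Real.exp (2 * d) * a) (𝓝 0) (𝓝 (Real.exp (2 * 0) * a)) := by
      apply Continuous.tendsto
      fun_prop
    rw [mul_zero, Real.exp_zero, one_mul] at h1
    have h2 := (h1.eventually (gt_mem_nhds ha)).filter_mono (nhdsWithin_le_nhds (s := Ioi 0))
    obtain ⟨d, hd1, hd2⟩ := (h2.and self_mem_nhdsWithin).exists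
    exact ⟨d, hd2, hd1⟩
  obtain ⟨d, hd0, hd1⟩ := hd
  have hr : ∃ r : ℝ, 0 < r ∧ Real.exp (2 * d) * a * kap < A * kap - C * (kap - kapc r) := by
    have h1 : Tendsto (fun r => A * kap - C * (kap - kapc r)) atTop
        (𝓝 (A * kap - C * (kap - kap))) :=
      ((kapc_tendsto.const_sub kap).const_mul C).const_sub _
    rw [sub_self, mul_zero, sub_zero] at h1
    have h2 : Real.exp (2 * d) * a * kap < A * kap := mul_lt_mul_of_pos_right hd1 kap_pos
    obtain ⟨r, hr1, hr2⟩ := ((h1.eventually (lt_mem_nhds h2)).and (eventually_gt_atTop 0)).exists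
    exact ⟨r, hr2, hr1⟩
  obtain ⟨r, hr0, hr2⟩ := hr
  have hl : 0 < r / d := div_pos hr0 hd0
  have hld : r / d * d = r := by field_simp
  have hQ := (Q_tendsto h hl).comp (tendsto_atTop_add_const_right atTop (-d) tendsto_id)
  have hQ2 := hQ.sub_const (C * (kap - kapc r))
  filter_upwards [hQ2.eventually (lt_mem_nhds hr2)] with y hy
  have h5 := S_lower h hl hd0 y
  rw [hld] at h5
  simp only [Function.comp, id] at hy
  have h6 : Real.exp (2 * d) * a * kap < S f y * Real.exp (2 * d) * kap := by
    rw [← sub_eq_add_neg] at hy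
    linarith
  have h7 : a * (Real.exp (2 * d) * kap) < S f y * (Real.exp (2 * d) * kap) := by
    calc a * (Real.exp (2 * d) * kap) = Real.exp (2 * d) * a * kap := by ring
      _ < _ := h6
      _ = _ := by ring
  exact lt_of_mul_lt_mul_right h7 (mul_nonneg (Real.exp_pos _).le kap_pos.le)

/-- **Wiener-Ikehara**, logarithmic scale. -/
theorem S_tendsto (h : WIHyp f A C F) : Tendsto (S f) atTop (𝓝 A) := by
  apply tendsto_order.mpr
  exact ⟨fun a ha => eventually_gt h ha, fun a ha => eventually_lt h ha⟩

/-- **Wiener-Ikehara** (with the Chebyshev bound as hypothesis). -/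
theorem wiener_ikehara (h : WIHyp f A C F) :
    Tendsto (fun x : ℝ => psum f x / x) atTop (𝓝 A) := by
  have h1 := (S_tendsto h).comp Real.tendsto_log_atTop
  apply h1.congr'
  filter_upwards [eventually_gt_atTop 0] with x hx
  simp only [Function.comp, S]
  rw [Real.exp_neg, Real.exp_log hx, div_eq_mul_inv]

end Pool.Agent.Helper44.PNT
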