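import Mathlib
import Pool.Agent.Helper44.PNT.Taub

open MeasureTheory Filter Topology Set

namespace Pool.Agent.Helper44.PNT

open ArithmeticFunction

lemma residueClass_hyp {q : ℕ} [NeZero q] {a : ZMod q} (ha : IsUnit a) :
    WIHyp (vonMangoldt.residueClass a) ((q.totient : ℝ)⁻¹) (Real.log 4 + 4)
      (vonMangoldt.LFunctionResidueClassAux a) where
  hf := vonMangoldt.residueClass_nonneg a
  hC := by
    intro n
    have h1 : ∑ k ∈ Finset.Icc 1 n, vonMangoldt.residueClass a k ≤ Chebyshev.psi n := by
      unfold Chebyshev.psi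
      rw [Nat.floor_natCast]
      exact Finset.sum_le_sum fun k _ => vonMangoldt.residueClass_le a k
    exact h1.trans (Chebyshev.psi_le_const_mul_self (Nat.cast_nonneg n))
  hFc := vonMangoldt.continuousOn_LFunctionResidueClassAux a
  hF := by
    intro s hs
    have := vonMangoldt.eqOn_LFunctionResidueClassAux ha hs
    simp only [] at this
    rw [this]
    push_cast
    rfl

/-- The prime number theorem in arithmetic progressions (von Mangoldt form). -/
theorem pnt_residueClass {q : ℕ} [NeZero q] {a : ZMod q} (ha : IsUnit a) :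
    Tendsto (fun x : ℝ => (∑ n ∈ Finset.Icc 1 ⌊x⌋₊, vonMangoldt.residueClass a n) / x) atTop
      (𝓝 ((q.totient : ℝ)⁻¹)) :=
  wiener_ikehara (residueClass_hyp ha)

/-- The prime number theorem, `psi` form. -/
theorem psi_div_tendsto : Tendsto (fun x : ℝ => Chebyshev.psi x / x) atTop (𝓝 1) := by
  have h := pnt_residueClass (q := 1) (a := 1) isUnit_one
  simp only [Nat.totient_one, Nat.cast_one, inv_one] at h
  refine h.congr fun x => ?_
  unfold Chebyshev.psi
  congr 1
  apply Finset.sum_congr rfl
  intro k _
  unfold vonMangoldt.residueClass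
  rw [indicator_of_mem]
  exact Subsingleton.elim _ _

/-- The prime number theorem, `theta` form. -/
theorem theta_div_tendsto : Tendsto (fun x : ℝ => Chebyshev.theta x / x) atTop (𝓝 1) := by
  obtain ⟨C, hC⟩ := Chebyshev.psi_sub_theta_le_mul_sqrt
  have h1 : Tendsto (fun x : ℝ => (Chebyshev.psi x - Chebyshev.theta x) / x) atTop (𝓝 0) := by
    have h2 : Tendsto (fun x : ℝ => C * (1 / Real.sqrt x)) atTop (𝓝 (C * 0)) := by
      apply Tendsto.const_mul
      simp only [one_div]
      exact (Real.tendsto_sqrt_atTop).inv_tendsto_atTop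
    rw [mul_zero] at h2
    refine tendsto_of_tendsto_of_tendsto_of_le_of_le' tendsto_const_nhds h2 ?_ ?_
    · filter_upwards [eventually_gt_atTop 0] with x hx
      apply div_nonneg _ hx.le
      linarith [Chebyshev.theta_le_psi x]
    · filter_upwards [eventually_gt_atTop 0] with x hx
      rw [div_le_iff₀ hx]
      have h3 := hC x
      have h4 : Real.sqrt x * Real.sqrt x = x := Real.mul_self_sqrt hx.le
      have h5 : 0 < Real.sqrt x := Real.sqrt_pos.mpr hx
      calc Chebyshev.psi x - Chebyshev.theta x ≤ C * Real.sqrt x := h3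
        _ = C * (1 / Real.sqrt x) * x := by
          nth_rewrite 3 [← h4]
          field_simp
  have h2 := psi_div_tendsto.sub h1
  rw [sub_zero] at h2
  refine h2.congr fun x => ?_
  ring

end Pool.Agent.Helper44.PNT
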